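import Pool.Agent.Lib.MP_4e92f2_gt.Proof

open Topology


open Pool.Agent.MP_4e92f2_gt in
/-- `τ` is not a minimal US topology on `X₀`: there is a `T₁` topology on `X₀`, strictly coarser
than `τ`, which is US; it even has the same open sets avoiding `∗` as `τ`. -/
theorem Pool.Agent.Results.MP_4e92f2_gt.NotMinimalUS.result :
    ∃ t : TopologicalSpace X0, @T1Space X0 t ∧ (∀ U : Set X0, IsOpen[t] U → IsOpen[tau] U) ∧
      t ≠ tau ∧ IsUS t ∧ (∀ U : Set X0, star ∉ U → (IsOpen[t] U ↔ IsOpen[tau] U)) := by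
  refine ⟨coarser, coarser_t1, coarser_sub_tau, coarser_ne_tau, coarser_us, fun U hU => ?_⟩
  rw [isOpen_coarser_iff, isOpen_tau_iff]
  exact ⟨fun h => ⟨h.1, fun h' => absurd h' hU⟩, fun h => ⟨h.1, fun h' => absurd h' hU⟩⟩
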